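import Mathlib
import Pool.Agent.H82.NP.Defs

/-! Dominated convergence and elementary rules for averages over the unit circle. -/

set_option autoImplicit false

open Metric Set Filter Topology MeasureTheory

namespace Pool.Agent.H62.UB

open Pool.Agent.H82.NP

/-- dominated convergence for circle averages, with finitely many exceptional points -/
theorem av_tendsto {F : ℕ → ℂ → ℝ} {f : ℂ → ℝ} {S : Set ℂ} {K : ℝ} (hS : S.Finite)
    (hF : ∀ k, CircleIntegrable (F k) 0 1) (hb : ∀ k z, ‖z‖ = 1 → |F k z| ≤ K)
    (hl : ∀ z, ‖z‖ = 1 → z ∉ S → Tendsto (fun k => F k z) atTop (𝓝 (f z))) :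
    Tendsto (fun k => av (F k)) atTop (𝓝 (av f)) := by
  unfold av Real.circleAverage
  refine Tendsto.const_smul ?_ _
  refine intervalIntegral.tendsto_integral_filter_of_dominated_convergence (fun _ => K) ?_ ?_ ?_ ?_
  · exact Eventually.of_forall fun k => (intervalIntegrable_iff.1 (hF k)).aestronglyMeasurable
  · refine Eventually.of_forall fun k => Eventually.of_forall fun θ _ => ?_
    rw [Real.norm_eq_abs]
    exact hb k _ (by simp)
  · exact intervalIntegrable_const
  · have h1 : (circleMap 0 1 ⁻¹' S).Countable := hS.countable.preimage_circleMap 0 one_ne_zero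
    filter_upwards [h1.ae_notMem volume] with θ hθ _
    exact hl _ (by simp) hθ

theorem ci_of_cont {f : ℂ → ℝ} (hf : ContinuousOn f (sphere 0 1)) : CircleIntegrable f 0 1 :=
  hf.circleIntegrable zero_le_one

theorem av_mono' {f g : ℂ → ℝ} (hf : ContinuousOn f (sphere 0 1))
    (hg : ContinuousOn g (sphere 0 1)) (h : ∀ z : ℂ, ‖z‖ = 1 → f z ≤ g z) : av f ≤ av g := by
  unfold av
  refine Real.circleAverage_mono (ci_of_cont hf) (ci_of_cont hg) fun z hz => h z ?_
  simpa using hz

theorem av_congr' {f g : ℂ → ℝ} (h : ∀ z : ℂ, ‖z‖ = 1 → f z = g z) : av f = av g := by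
  unfold av
  refine Real.circleAverage_congr_sphere fun z hz => h z ?_
  simpa using hz

theorem av_add' {f g : ℂ → ℝ} (hf : ContinuousOn f (sphere 0 1))
    (hg : ContinuousOn g (sphere 0 1)) : av (fun z => f z + g z) = av f + av g :=
  Real.circleAverage_fun_add (ci_of_cont hf) (ci_of_cont hg)

theorem av_sub' {f g : ℂ → ℝ} (hf : ContinuousOn f (sphere 0 1))
    (hg : ContinuousOn g (sphere 0 1)) : av (fun z => f z - g z) = av f - av g :=
  Real.circleAverage_fun_sub (ci_of_cont hf) (ci_of_cont hg)

theorem av_mul' (a : ℝ) (f : ℂ → ℝ) : av (fun z => a * f z) = a * av f := by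
  have := Real.circleAverage_fun_smul (c := 0) (R := 1) (a := a) (f := f)
  simpa [av] using this

theorem av_const' (a : ℝ) : av (fun _ => a) = a := Real.circleAverage_const a 0 1

/-- real parts of averages -/
theorem av_re {f : ℂ → ℂ} (hf : CircleIntegrable f 0 1) :
    av (fun z => (f z).re) = (Real.circleAverage f 0 1).re :=
  Complex.reCLM.circleAverage_comp_comm hf

end Pool.Agent.H62.UB
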