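import Mathlib

/-! Real parts of polynomials are dense in the continuous real functions on the unit circle. -/

set_option autoImplicit false

open Metric Set Filter Topology Polynomial ComplexConjugate

namespace Pool.Agent.H62.UB

theorem span_form (g : C(AddCircle (1 : ℝ), ℂ))
    (hg : g ∈ Submodule.span ℂ (range (@fourier (1 : ℝ)))) :
    ∃ P Q : ℂ[X], ∀ x : AddCircle (1 : ℝ), g x = P.eval (AddCircle.toCircle x : ℂ)
      + conj (Q.eval (AddCircle.toCircle x : ℂ)) := by
  induction hg using Submodule.span_induction with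
  | mem g hg =>
    obtain ⟨n, rfl⟩ := hg
    obtain ⟨k, rfl | rfl⟩ := n.eq_nat_or_neg
    · refine ⟨X ^ k, 0, fun x => ?_⟩
      rw [fourier_apply, AddCircle.toCircle_zsmul]
      simp
    · refine ⟨0, X ^ k, fun x => ?_⟩
      rw [fourier_apply, AddCircle.toCircle_zsmul]
      simp only [eval_zero, eval_pow, eval_X, zero_add, map_pow, zpow_neg, zpow_natCast]
      rw [Circle.coe_inv_eq_conj, Circle.coe_pow, map_pow]
  | zero => exact ⟨0, 0, fun x => by simp⟩
  | add g h _ _ ih1 ih2 =>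
    obtain ⟨P, Q, h1⟩ := ih1
    obtain ⟨P', Q', h2⟩ := ih2
    refine ⟨P + P', Q + Q', fun x => ?_⟩
    rw [ContinuousMap.add_apply, h1, h2, eval_add, eval_add, map_add]
    ring
  | smul a g _ ih =>
    obtain ⟨P, Q, h1⟩ := ih
    refine ⟨C a * P, C (conj a) * Q, fun x => ?_⟩
    rw [ContinuousMap.smul_apply, h1, eval_mul, eval_mul, eval_C, eval_C, map_mul,
      Complex.conj_conj, smul_eq_mul]
    ring

theorem dens {R : ℂ → ℝ} (hR : ContinuousOn R (sphere 0 1)) {ε : ℝ} (hε : 0 < ε) :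
    ∃ Q : ℂ[X], (Q.eval 0).im = 0 ∧ ∀ z : ℂ, ‖z‖ = 1 → R z ≤ (Q.eval z).re ∧
      (Q.eval z).re ≤ R z + ε := by
  have hcont : Continuous fun x : AddCircle (1 : ℝ) => ((R (AddCircle.toCircle x : ℂ) : ℝ) : ℂ) := by
    refine Complex.continuous_ofReal.comp ?_
    refine hR.comp_continuous (continuous_subtype_val.comp AddCircle.continuous_toCircle)
      fun x => ?_
    exact mem_sphere_zero_iff_norm.2 (Circle.norm_coe _)
  have hmem : (⟨_, hcont⟩ : C(AddCircle (1 : ℝ), ℂ)) ∈
      (Submodule.span ℂ (range (@fourier (1 : ℝ)))).topologicalClosure := by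
    rw [span_fourier_closure_eq_top]
    trivial
  obtain ⟨g, hg, hd⟩ := Metric.mem_closure_iff.1 hmem (ε / 2) (by positivity)
  obtain ⟨P, Q, hPQ⟩ := span_form g hg
  set W : ℂ[X] := P + Q with hW
  refine ⟨W - C (Complex.I * (W.eval 0).im) + C ((ε / 2 : ℝ) : ℂ), ?_, fun z hz => ?_⟩
  · simp
  · obtain ⟨x, hx⟩ := (AddCircle.homeomorphCircle (T := (1 : ℝ)) one_ne_zero).surjective
      (⟨z, mem_sphere_zero_iff_norm.2 hz⟩ : Circle)
    have hxz : (AddCircle.toCircle x : ℂ) = z := by
      rw [← AddCircle.homeomorphCircle_apply one_ne_zero, hx]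
    have h1 : dist (⟨_, hcont⟩ : C(AddCircle (1 : ℝ), ℂ)) g < ε / 2 := hd
    have h2 := (ContinuousMap.dist_apply_le_dist (f := ⟨_, hcont⟩) (g := g) x).trans_lt h1
    rw [dist_eq_norm, ContinuousMap.coe_mk, hPQ, hxz] at h2
    have h3 := (Complex.abs_re_le_norm _).trans_lt h2
    have h4 : (((R z : ℝ) : ℂ) - (P.eval z + conj (Q.eval z))).re = R z - (W.eval z).re := by
      rw [hW, eval_add]
      simp
    rw [h4, abs_lt] at h3
    have h5 : ((W - C (Complex.I * (W.eval 0).im) + C ((ε / 2 : ℝ) : ℂ)).eval z).re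
        = (W.eval z).re + ε / 2 := by
      rw [eval_add, eval_sub, eval_C, eval_C, Complex.add_re, Complex.sub_re, Complex.ofReal_re]
      simp
    rw [h5]
    constructor <;> linarith [h3.1, h3.2]

end Pool.Agent.H62.UB
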