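import Pool.Agent.H82.UB.Targets
import Pool.Agent.H82.NP.KEY
import Pool.Agent.H62.UB.DC

/-! HARM: mean value of `1 / (2 + H)`, `H = 1 - 2 z G' / (n G)`. -/

set_option autoImplicit false

open Metric Set Filter Topology Polynomial ComplexConjugate

namespace Pool.Agent.H62.UB

open Pool.Agent.H82.NP Pool.Agent.H82.UB

theorem pA_re {n : ℕ} {G : ℂ[X]} (hn : 1 ≤ n) (hG : G.natDegree ≤ n)
    (hz : ∀ z : ℂ, ‖z‖ < 1 → G.eval z ≠ 0) {z : ℂ} (hz1 : ‖z‖ ≤ 1) :
    2 * ((pA n G).eval z * conj (G.eval z)).re ≤ ‖G.eval z‖ ^ 2 := by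
  obtain ⟨ρ, w, hρ0, hρ1, hw, rfl⟩ : ∃ (ρ : ℝ) (w : ℂ), 0 ≤ ρ ∧ ρ ≤ 1 ∧ ‖w‖ = 1 ∧ z = ρ * w := by
    by_cases h : z = 0
    · exact ⟨0, 1, le_rfl, zero_le_one, by simp, by simp [h]⟩
    · have h2 : (‖z‖ : ℂ) ≠ 0 := by simpa using h
      refine ⟨‖z‖, z / ‖z‖, norm_nonneg z, hz1, ?_, ?_⟩
      · rw [norm_div, Complex.norm_real, norm_norm, div_self (by simpa using h)]
      · field_simp
  set H : ℂ[X] := G.comp (C (ρ : ℂ) * X) with hH
  have e1 : ∀ β : ℂ, H.eval β = G.eval (ρ * β) := by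
    intro β; rw [hH, eval_comp]; simp
  have e2 : (DD H).eval w = (ρ * w) * (derivative G).eval (ρ * w) := by
    unfold DD
    rw [hH, derivative_comp]
    simp [eval_comp]
    ring
  have hHd : H.natDegree ≤ n := by
    refine natDegree_comp_le.trans ?_
    calc G.natDegree * (C (ρ : ℂ) * X).natDegree ≤ n * 1 :=
          Nat.mul_le_mul hG ((natDegree_C_mul_le _ _).trans natDegree_X_le)
      _ = n := mul_one n
  have h1 := nonneg_aux w hw n H hHd (by
    intro β hβ
    rw [e1] at hβ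
    by_contra hc
    push Not at hc
    refine hz (ρ * β) ?_ hβ
    rw [norm_mul, Complex.norm_real, Real.norm_eq_abs, abs_of_nonneg hρ0]
    nlinarith [norm_nonneg β])
  have e3 : (pA n G).eval (ρ * w) = (n : ℂ)⁻¹ * (DD H).eval w := by
    rw [e2]; unfold pA; simp
  unfold Pool.Agent.H82.NP.sq at h1
  rw [e1] at h1
  have hn0 : (0 : ℝ) < n := by exact_mod_cast hn
  have e4 : ((pA n G).eval (ρ * w) * conj (G.eval (ρ * w))).re
      = (n : ℝ)⁻¹ * ((DD H).eval w * conj (G.eval (ρ * w))).re := by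
    rw [e3, mul_assoc]
    have : ((n : ℂ)⁻¹) = (((n : ℝ)⁻¹ : ℝ) : ℂ) := by push_cast; rfl
    rw [this, Complex.re_ofReal_mul]
  rw [e4]
  have h2 : (n : ℝ)⁻¹ * (2 * ((DD H).eval w * conj (G.eval (ρ * w))).re)
      ≤ (n : ℝ)⁻¹ * (n * ‖G.eval (ρ * w)‖ ^ 2) :=
    mul_le_mul_of_nonneg_left (by linarith) (by positivity)
  rw [← mul_assoc, ← mul_assoc, inv_mul_cancel₀ hn0.ne', one_mul] at h2
  linarith

/-- `|G| ≤ |3 G - 2 A| / 2` on the closed disc -/
theorem den_bound {n : ℕ} {G : ℂ[X]} (hn : 1 ≤ n) (hG : G.natDegree ≤ n)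
    (hz : ∀ z : ℂ, ‖z‖ < 1 → G.eval z ≠ 0) {z : ℂ} (hz1 : ‖z‖ ≤ 1) :
    2 * ‖G.eval z‖ ≤ ‖3 * G.eval z - 2 * (pA n G).eval z‖ := by
  by_cases h0 : G.eval z = 0
  · rw [h0]; simp
  have hp : 0 < ‖G.eval z‖ := norm_pos_iff.2 h0
  have h1 := pA_re hn hG hz hz1
  have h2 : ((3 * G.eval z - 2 * (pA n G).eval z) * conj (G.eval z)).re
      = 3 * ‖G.eval z‖ ^ 2 - 2 * ((pA n G).eval z * conj (G.eval z)).re := by
    have : (3 * G.eval z - 2 * (pA n G).eval z) * conj (G.eval z)
        = ((3 * ‖G.eval z‖ ^ 2 : ℝ) : ℂ) - ((2 : ℝ) : ℂ) * ((pA n G).eval z * conj (G.eval z)) := by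
      have h3 : G.eval z * conj (G.eval z) = ((‖G.eval z‖ ^ 2 : ℝ) : ℂ) := by
        rw [Complex.mul_conj, Complex.normSq_eq_norm_sq]
      push_cast at h3 ⊢
      linear_combination 3 * h3
    rw [this, Complex.sub_re, Complex.ofReal_re, Complex.re_ofReal_mul]
  have h3 : ((3 * G.eval z - 2 * (pA n G).eval z) * conj (G.eval z)).re
      ≤ ‖3 * G.eval z - 2 * (pA n G).eval z‖ * ‖G.eval z‖ := by
    refine (Complex.re_le_norm _).trans ?_
    rw [norm_mul, Complex.norm_conj]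
  have h4 : 2 * ‖G.eval z‖ * ‖G.eval z‖ ≤ ‖3 * G.eval z - 2 * (pA n G).eval z‖ * ‖G.eval z‖ := by
    nlinarith
  exact le_of_mul_le_mul_right h4 hp

theorem t_HARM : T_HARM := by
  intro n G hn hG hz
  refine ⟨fun z hz1 => pA_re hn hG hz hz1.le, ?_⟩
  set f : ℂ → ℂ := fun z => G.eval z / (3 * G.eval z - 2 * (pA n G).eval z) with hf
  have hbd : ∀ z : ℂ, ‖z‖ ≤ 1 → ‖f z‖ ≤ 1 / 2 := by
    intro z hz1
    have h1 := den_bound hn hG hz hz1
    by_cases h0 : 3 * G.eval z - 2 * (pA n G).eval z = 0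
    · simp [hf, h0]
    · rw [hf]
      simp only []
      rw [norm_div, div_le_iff₀ (norm_pos_iff.2 h0)]
      linarith
  have hnz : ∀ z : ℂ, ‖z‖ < 1 → 3 * G.eval z - 2 * (pA n G).eval z ≠ 0 := by
    intro z hz1 h0
    have h1 := den_bound hn hG hz hz1.le
    rw [h0, norm_zero] at h1
    have h2 := norm_pos_iff.2 (hz z hz1)
    linarith
  have hA0 : (pA n G).eval 0 = 0 := by unfold pA; simp
  have hG0 : G.eval 0 ≠ 0 := hz 0 (by simp)
  -- the averages over smaller circles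
  set r : ℕ → ℝ := fun k => (k : ℝ) / (k + 1) with hr
  have hr0 : ∀ k, 0 ≤ r k := fun k => by positivity
  have hr1 : ∀ k, r k < 1 := fun k => by
    rw [hr]; simp only []; rw [div_lt_one (by positivity)]; linarith
  have hrn : ∀ k z, ‖z‖ ≤ 1 → ‖(r k : ℂ) * z‖ < 1 := by
    intro k z hz1
    rw [norm_mul, Complex.norm_real, Real.norm_eq_abs, abs_of_nonneg (hr0 k)]
    have := hr1 k
    nlinarith [hr0 k, norm_nonneg z]
  have hcd : ∀ z : ℂ, 3 * G.eval z - 2 * (pA n G).eval z ≠ 0 → DifferentiableAt ℂ f z := by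
    intro z h0
    exact (G.differentiable z).div (((G.differentiable z).const_mul 3).sub
      (((pA n G).differentiable z).const_mul 2)) h0
  have hdiff : ∀ k, DiffContOnCl ℂ (fun z => f ((r k : ℂ) * z)) (ball 0 1) := by
    intro k
    refine DifferentiableOn.diffContOnCl fun z hz1 => ?_
    rw [closure_ball _ one_ne_zero, mem_closedBall_zero_iff] at hz1
    have h1 := hcd _ (hnz _ (hrn k z hz1))
    exact (h1.comp z (differentiableAt_id.const_mul _)).differentiableWithinAt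
  have hci : ∀ k, CircleIntegrable (fun z => f ((r k : ℂ) * z)) 0 1 := by
    intro k
    refine ContinuousOn.circleIntegrable zero_le_one ((hdiff k).continuousOn.mono ?_)
    rw [closure_ball _ one_ne_zero]
    exact sphere_subset_closedBall
  have hav : ∀ k, av (fun z => (f ((r k : ℂ) * z)).re) = 1 / 3 := by
    intro k
    rw [av_re (hci k)]
    have h1 := DiffContOnCl.circleAverage (f := fun z => f ((r k : ℂ) * z)) (c := 0) (R := 1)
      (by rw [abs_one]; exact hdiff k)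
    rw [h1]
    have h2 : f ((r k : ℂ) * 0) = 1 / 3 := by
      rw [hf]
      simp only [mul_zero, hA0, sub_zero]
      field_simp
    rw [h2]
    norm_num
  have hS : {z : ℂ | 3 * G.eval z - 2 * (pA n G).eval z = 0}.Finite := by
    have h1 : C 3 * G - C 2 * pA n G ≠ 0 := by
      intro h0
      have h2 := congrArg (eval 0) h0
      simp [hA0, hG0] at h2
    refine (finite_setOf_isRoot h1).subset fun z hz1 => ?_
    simpa [IsRoot] using hz1
  have hrt : Tendsto r atTop (𝓝 1) := tendsto_natCast_div_add_atTop 1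
  have hlim := av_tendsto (F := fun k z => (f ((r k : ℂ) * z)).re) (f := fun z => (f z).re)
    (K := 1 / 2) hS (fun k => by
      have := (hci k)
      exact ContinuousOn.circleIntegrable zero_le_one (Complex.continuous_re.comp_continuousOn
        ((hdiff k).continuousOn.mono (by
          rw [closure_ball _ one_ne_zero]
          exact sphere_subset_closedBall))))
    (fun k z hz1 => (Complex.abs_re_le_norm _).trans (hbd _ (hrn k z hz1.le).le))
    (fun z hz1 hzS => by
      have h1 : ContinuousAt f z := (hcd z hzS).continuousAt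
      have h2 : Tendsto (fun k => (r k : ℂ) * z) atTop (𝓝 z) := by
        have h3 : Tendsto (fun k => (r k : ℂ)) atTop (𝓝 ((1 : ℝ) : ℂ)) :=
          (Complex.continuous_ofReal.tendsto 1).comp hrt
        have h4 := h3.mul_const z
        rwa [Complex.ofReal_one, one_mul] at h4
      exact (Complex.continuous_re.tendsto _).comp (h1.tendsto.comp h2))
  simp only [hav] at hlim
  exact tendsto_nhds_unique hlim tendsto_const_nhds

end Pool.Agent.H62.UB
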