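import Pool.Agent.H82.UB.Targets
import Pool.Agent.H62.UB.DC
import Pool.Agent.H62.UB.DEN

/-! S1: heavy tails of the potential of finitely many atoms on the circle. -/

set_option autoImplicit false

open Metric Set Filter Topology Polynomial ComplexConjugate

namespace Pool.Agent.H62.UB

open Pool.Agent.H82.NP Pool.Agent.H82.UB

/-- pointwise inequality -/
theorem pt_ineq {ρ B R q u ε K : ℝ} (h0 : 0 ≤ ρ) (hK : ρ ≤ K) (hB : 0 < B)
    (hR : R * (ρ + B) = 1) (hR0 : 0 ≤ R) (hq : R ≤ q) (hq2 : q ≤ R + ε) (hε : 0 ≤ ε) :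
    R ^ 2 - 3 * (1 + ε * (K + B)) * u ^ 2 ≤ (ρ + B) * (q ^ 3 - 3 * q * u ^ 2) := by
  have hs : 0 < ρ + B := by linarith
  have h1 : R ^ 2 ≤ (ρ + B) * q ^ 3 := by
    have h2 : R ^ 3 ≤ q ^ 3 := pow_le_pow_left₀ hR0 hq 3
    calc R ^ 2 = (ρ + B) * R ^ 3 := by
          have : (ρ + B) * R ^ 3 = (R * (ρ + B)) * R ^ 2 := by ring
          rw [this, hR, one_mul]
      _ ≤ (ρ + B) * q ^ 3 := mul_le_mul_of_nonneg_left h2 hs.le
  have h3 : (ρ + B) * q ≤ 1 + ε * (K + B) := by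
    calc (ρ + B) * q ≤ (ρ + B) * (R + ε) := mul_le_mul_of_nonneg_left hq2 hs.le
      _ = 1 + ε * (ρ + B) := by
          have : (ρ + B) * (R + ε) = R * (ρ + B) + ε * (ρ + B) := by ring
          rw [this, hR]
      _ ≤ 1 + ε * (K + B) := by
          have := mul_le_mul_of_nonneg_left (by linarith : ρ + B ≤ K + B) hε
          linarith
  have h4 := mul_le_mul_of_nonneg_right h3 (sq_nonneg u)
  nlinarith

theorem cont_ev (Q : ℂ[X]) : ContinuousOn (fun z => (Q.eval z).re) (sphere 0 1) :=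
  (Complex.continuous_re.comp Q.continuous).continuousOn

theorem av_ev (Q : ℂ[X]) : av (fun z => (Q.eval z).re) = (Q.eval 0).re := by
  have h1 : CircleIntegrable (fun z => Q.eval z) 0 1 :=
    Q.continuous.continuousOn.circleIntegrable zero_le_one
  rw [av_re h1, DiffContOnCl.circleAverage]
  exact Q.differentiable.diffContOnCl

theorem av_pois (Q : ℂ[X]) {w : ℂ} (hw : ‖w‖ < 1) :
    av (fun z => (1 - ‖w‖ ^ 2) / ‖z - w‖ ^ 2 * (Q.eval z).re) = (Q.eval w).re := by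
  have h0 : ∀ z ∈ sphere (0 : ℂ) 1, ‖z - w‖ ^ 2 ≠ 0 := by
    intro z hz h
    have h1 : z = w := by simpa [sub_eq_zero] using h
    rw [h1, mem_sphere_zero_iff_norm] at hz
    linarith
  have h1 : ContinuousOn (fun z : ℂ => ((1 - ‖w‖ ^ 2) / ‖z - w‖ ^ 2) • Q.eval z) (sphere 0 1) := by
    refine ContinuousOn.smul (ContinuousOn.div (by fun_prop) (by fun_prop) h0)
      Q.continuous.continuousOn
  have h2 := DiffContOnCl.circleAverage_poissonKernel_smul' (f := fun z => Q.eval z) (c := 0)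
    (R := 1) (w := w) Q.differentiable.diffContOnCl (by simpa using hw)
  have h3 := av_re (h1.circleIntegrable zero_le_one)
  have h4 : Real.circleAverage (fun z : ℂ => ((1 - ‖w‖ ^ 2) / ‖z - w‖ ^ 2) • Q.eval z) 0 1
      = Q.eval w := by
    rw [← h2]
    refine Real.circleAverage_congr_sphere fun z hz => ?_
    have hz1 : ‖z‖ = 1 := by simpa using hz
    simp only [sub_zero, hz1, one_pow]
  rw [h4] at h3
  rw [← h3]
  refine av_congr' fun z _ => ?_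
  rw [Complex.real_smul, Complex.re_ofReal_mul]

/-- the potential with atoms moved into the disc -/
noncomputable def rt {m : ℕ} (t : ℝ) (c : Fin m → ℝ) (ζ : Fin m → ℂ) (z : ℂ) : ℝ :=
  ∑ i, c i / ‖z - t * ζ i‖ ^ 2

theorem nw {t : ℝ} (h0 : 0 ≤ t) {ζ : ℂ} (h : ‖ζ‖ = 1) : ‖(t : ℂ) * ζ‖ = t := by
  rw [norm_mul, h, mul_one, Complex.norm_real, Real.norm_eq_abs, abs_of_nonneg h0]

theorem dist_ge {t : ℝ} (h0 : 0 ≤ t) {ζ z : ℂ} (h : ‖ζ‖ = 1) (hz : ‖z‖ = 1) :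
    1 - t ≤ ‖z - t * ζ‖ := by
  have := norm_sub_norm_le z (t * ζ)
  rwa [hz, nw h0 h] at this

theorem cont_term {t : ℝ} (h0 : 0 ≤ t) (h1 : t < 1) (a : ℝ) {ζ : ℂ} (h : ‖ζ‖ = 1) :
    ContinuousOn (fun z : ℂ => a / ‖z - t * ζ‖ ^ 2) (sphere 0 1) := by
  refine ContinuousOn.div (by fun_prop) (by fun_prop) fun z hz => ?_
  have := dist_ge h0 h (mem_sphere_zero_iff_norm.1 hz)
  have h2 : 0 < ‖z - t * ζ‖ := by linarith
  positivity

theorem cont_rt {m : ℕ} {t : ℝ} (h0 : 0 ≤ t) (h1 : t < 1) (c : Fin m → ℝ) {ζ : Fin m → ℂ}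
    (h : ∀ i, ‖ζ i‖ = 1) : ContinuousOn (rt t c ζ) (sphere 0 1) := by
  unfold rt
  exact continuousOn_finsetSum _ fun i _ => cont_term h0 h1 (c i) (h i)

theorem rt_nonneg {m : ℕ} (t : ℝ) {c : Fin m → ℝ} (hc : ∀ i, 0 < c i) (ζ : Fin m → ℂ) (z : ℂ) :
    0 ≤ rt t c ζ z :=
  Finset.sum_nonneg fun i _ => div_nonneg (hc i).le (sq_nonneg _)

theorem av_sum' {m : ℕ} {f : Fin m → ℂ → ℝ} (hf : ∀ i, ContinuousOn (f i) (sphere 0 1)) :
    av (fun z => ∑ i, f i z) = ∑ i, av (f i) :=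
  Real.circleAverage_fun_sum fun i _ => ci_of_cont (hf i)

/-- the value of `Re Q` at an atom -/
theorem re_at {m : ℕ} {t : ℝ} (ht0 : 0 ≤ t) (ht1 : t < 1) {c : Fin m → ℝ} (hc : ∀ i, 0 < c i)
    {ζ : Fin m → ℂ} (hζ : ∀ i, ‖ζ i‖ = 1) {B : ℝ} (hB : 0 < B) {Q : ℂ[X]} {ε : ℝ}
    (hQ : ∀ z : ℂ, ‖z‖ = 1 → 1 / (rt t c ζ z + B) ≤ (Q.eval z).re ∧
      (Q.eval z).re ≤ 1 / (rt t c ζ z + B) + ε) (i : Fin m) :
    0 ≤ (Q.eval (t * ζ i)).re ∧ (Q.eval (t * ζ i)).re ≤ (1 - t ^ 2) / c i + ε := by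
  have hw : ‖(t : ℂ) * ζ i‖ < 1 := by rw [nw ht0 (hζ i)]; exact ht1
  have h1 := av_pois Q hw
  have h2 := av_pois 1 hw
  rw [nw ht0 (hζ i)] at h1 h2
  have ht2 : 0 < 1 - t ^ 2 := by nlinarith
  have hcont := cont_term ht0 ht1 (1 - t ^ 2) (hζ i)
  have hcont1 : ContinuousOn (fun z : ℂ => (1 - t ^ 2) / ‖z - t * ζ i‖ ^ 2 * (Q.eval z).re)
      (sphere 0 1) := hcont.mul (cont_ev Q)
  have hRpos : ∀ z : ℂ, 0 < rt t c ζ z + B := fun z => by
    have := rt_nonneg t hc ζ z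
    linarith
  constructor
  · rw [← h1, ← av_const' 0]
    refine av_mono' continuousOn_const hcont1 fun z hz => ?_
    exact mul_nonneg (div_nonneg ht2.le (sq_nonneg _))
      ((one_div_nonneg.2 (hRpos z).le).trans (hQ z hz).1)
  · have e2 : av (fun z : ℂ => (1 - t ^ 2) / ‖z - t * ζ i‖ ^ 2) = 1 := by
      rw [show (((1 : ℂ[X]).eval ((t : ℂ) * ζ i)).re) = 1 by simp] at h2
      refine (av_congr' fun z _ => ?_).trans h2
      simp
    have h3 : av (fun z : ℂ => (1 - t ^ 2) / c i + ε * ((1 - t ^ 2) / ‖z - t * ζ i‖ ^ 2))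
        = (1 - t ^ 2) / c i + ε := by
      rw [av_add' (f := fun _ => (1 - t ^ 2) / c i)
        (g := fun z : ℂ => ε * ((1 - t ^ 2) / ‖z - t * ζ i‖ ^ 2)) continuousOn_const
        (continuousOn_const.mul hcont), av_const', av_mul', e2, mul_one]
    rw [← h1, ← h3]
    refine av_mono' hcont1 (continuousOn_const.add (continuousOn_const.mul hcont)) fun z hz => ?_
    have hd : 0 < ‖z - t * ζ i‖ ^ 2 := by
      have := dist_ge ht0 (hζ i) hz
      have h2 : 0 < ‖z - t * ζ i‖ := by linarith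
      positivity
    have hP : 0 ≤ (1 - t ^ 2) / ‖z - t * ζ i‖ ^ 2 := by positivity
    have h4 := mul_le_mul_of_nonneg_left (hQ z hz).2 hP
    have h5 : c i / ‖z - t * ζ i‖ ^ 2 ≤ rt t c ζ z := by
      unfold rt
      exact Finset.single_le_sum (f := fun i => c i / ‖z - t * ζ i‖ ^ 2)
        (fun j _ => div_nonneg (hc j).le (sq_nonneg _)) (Finset.mem_univ i)
    have h6 : (1 - t ^ 2) / ‖z - t * ζ i‖ ^ 2 * (1 / (rt t c ζ z + B)) ≤ (1 - t ^ 2) / c i := by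
      have h7 : c i / ‖z - t * ζ i‖ ^ 2 * (1 / (rt t c ζ z + B)) ≤ 1 := by
        rw [mul_one_div, div_le_one (hRpos z)]
        linarith
      have h8 : (1 - t ^ 2) / ‖z - t * ζ i‖ ^ 2 * (1 / (rt t c ζ z + B))
          = (1 - t ^ 2) / c i * (c i / ‖z - t * ζ i‖ ^ 2 * (1 / (rt t c ζ z + B))) := by
        have := (hc i).ne'
        field_simp
      rw [h8]
      have h9 : 0 ≤ (1 - t ^ 2) / c i := div_nonneg ht2.le (hc i).le
      exact mul_le_of_le_one_right h9 h7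
    calc (1 - t ^ 2) / ‖z - t * ζ i‖ ^ 2 * (Q.eval z).re
        ≤ (1 - t ^ 2) / ‖z - t * ζ i‖ ^ 2 * (1 / (rt t c ζ z + B) + ε) := h4
      _ = (1 - t ^ 2) / ‖z - t * ζ i‖ ^ 2 * (1 / (rt t c ζ z + B))
          + ε * ((1 - t ^ 2) / ‖z - t * ζ i‖ ^ 2) := by ring
      _ ≤ (1 - t ^ 2) / c i + ε * ((1 - t ^ 2) / ‖z - t * ζ i‖ ^ 2) := by linarith

theorem cube_re (w : ℂ) : (w ^ 3).re = w.re ^ 3 - 3 * w.re * w.im ^ 2 := by
  rw [pow_succ, pow_two]
  simp only [Complex.mul_re, Complex.mul_im]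
  ring

theorem sq_re (w : ℂ) : (w ^ 2).re = w.re ^ 2 - w.im ^ 2 := by
  rw [pow_two]
  simp only [Complex.mul_re]
  ring

/-- the inequality with an approximation error `ε` -/
theorem claim_eps {m : ℕ} {t : ℝ} (ht0 : 0 ≤ t) (ht1 : t < 1) {c : Fin m → ℝ}
    (hc : ∀ i, 0 < c i) {ζ : Fin m → ℂ} (hζ : ∀ i, ‖ζ i‖ = 1) {B : ℝ} (hB : 0 < B) {K : ℝ}
    (hK : ∀ z : ℂ, ‖z‖ = 1 → rt t c ζ z ≤ K) {ε : ℝ} (hε : 0 < ε) :
    av (fun z => (1 / (rt t c ζ z + B)) ^ 2) ≤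
      ∑ i, c i / (1 - t ^ 2) * ((1 - t ^ 2) / c i + ε) ^ 3
      + B * (av (fun z => 1 / (rt t c ζ z + B)) + ε) ^ 3
      + 3 * (1 + ε * (K + B)) * (av (fun z => (1 / (rt t c ζ z + B)) ^ 2)
        + 2 * ε * av (fun z => 1 / (rt t c ζ z + B)) + ε ^ 2
        - (av (fun z => 1 / (rt t c ζ z + B))) ^ 2) := by
  have hpos : ∀ z : ℂ, 0 < rt t c ζ z + B := fun z => by
    have := rt_nonneg t hc ζ z
    linarith
  have hRc : ContinuousOn (fun z => 1 / (rt t c ζ z + B)) (sphere 0 1) :=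
    continuousOn_const.div ((cont_rt ht0 ht1 c hζ).add continuousOn_const)
      fun z _ => (hpos z).ne'
  have hrc := cont_rt ht0 ht1 c hζ
  obtain ⟨Q, hQ0, hQ⟩ := dens hRc hε
  set R : ℂ → ℝ := fun z => 1 / (rt t c ζ z + B) with hR
  set m1 : ℝ := av R with hm1
  set M2 : ℝ := av (fun z => R z ^ 2) with hM2
  have ht2 : 0 < 1 - t ^ 2 := by nlinarith
  have hK0 : 0 ≤ K := (rt_nonneg t hc ζ 1).trans (hK 1 (by simp))
  have hR0 : ∀ z, 0 ≤ R z := fun z => one_div_nonneg.2 (hpos z).le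
  -- the average of `Re Q`
  set a0 : ℝ := (Q.eval 0).re with ha0
  have ha : av (fun z => (Q.eval z).re) = a0 := av_ev Q
  have h1 : m1 ≤ a0 := by
    rw [← ha]
    exact av_mono' hRc (cont_ev Q) fun z hz => (hQ z hz).1
  have h2 : a0 ≤ m1 + ε := by
    rw [← ha, hm1, ← av_const' ε, ← av_add' hRc continuousOn_const]
    exact av_mono' (cont_ev Q) (hRc.add continuousOn_const) fun z hz => (hQ z hz).2
  have hm0 : 0 ≤ m1 := by
    rw [hm1, ← av_const' 0]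
    exact av_mono' continuousOn_const hRc fun z _ => hR0 z
  have hQ2 : av (fun z => ((Q ^ 2).eval z).re) = a0 ^ 2 := by
    rw [av_ev, eval_pow, sq_re, hQ0]; ring
  have hQ3 : av (fun z => ((Q ^ 3).eval z).re) = a0 ^ 3 := by
    rw [av_ev, eval_pow, cube_re, hQ0]; ring
  -- the potential against `Re Q³`
  have h3 : av (fun z => rt t c ζ z * ((Q ^ 3).eval z).re)
      ≤ ∑ i, c i / (1 - t ^ 2) * ((1 - t ^ 2) / c i + ε) ^ 3 := by
    have e1 : av (fun z => rt t c ζ z * ((Q ^ 3).eval z).re)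
        = ∑ i, c i / (1 - t ^ 2) * ((Q ^ 3).eval (t * ζ i)).re := by
      have e2 : av (fun z => rt t c ζ z * ((Q ^ 3).eval z).re)
          = av (fun z => ∑ i, c i / (1 - t ^ 2) *
            ((1 - ‖(t : ℂ) * ζ i‖ ^ 2) / ‖z - t * ζ i‖ ^ 2 * ((Q ^ 3).eval z).re)) := by
        refine av_congr' fun z hz => ?_
        unfold rt
        rw [Finset.sum_mul]
        refine Finset.sum_congr rfl fun i _ => ?_
        rw [nw ht0 (hζ i)]
        field_simp
      rw [e2, av_sum']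
      · refine Finset.sum_congr rfl fun i _ => ?_
        rw [av_mul', av_pois (Q ^ 3) (by rw [nw ht0 (hζ i)]; exact ht1)]
      · intro i
        rw [nw ht0 (hζ i)]
        exact continuousOn_const.mul ((cont_term ht0 ht1 (1 - t ^ 2) (hζ i)).mul (cont_ev _))
    rw [e1]
    refine Finset.sum_le_sum fun i _ => ?_
    refine mul_le_mul_of_nonneg_left ?_ (div_nonneg (hc i).le ht2.le)
    obtain ⟨h5, h6⟩ := re_at ht0 ht1 hc hζ hB hQ i
    rw [eval_pow, cube_re]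
    have h7 := pow_le_pow_left₀ h5 h6 3
    have h8 := mul_nonneg h5 (sq_nonneg (Q.eval (t * ζ i)).im)
    linarith
  -- the pointwise inequality, averaged
  have h4 : M2 ≤ av (fun z => rt t c ζ z * ((Q ^ 3).eval z).re) + B * a0 ^ 3
      + 3 * (1 + ε * (K + B)) * (M2 + 2 * ε * m1 + ε ^ 2 - a0 ^ 2) := by
    have hc1 : ContinuousOn (fun z => rt t c ζ z * ((Q ^ 3).eval z).re) (sphere 0 1) :=
      hrc.mul (cont_ev _)
    have hc2 : ContinuousOn (fun z => B * ((Q ^ 3).eval z).re) (sphere 0 1) :=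
      continuousOn_const.mul (cont_ev _)
    have hc3 : ContinuousOn (fun z => R z ^ 2 + 2 * ε * R z) (sphere 0 1) :=
      (hRc.pow 2).add (continuousOn_const.mul hRc)
    have hc4 : ContinuousOn (fun z => R z ^ 2 + 2 * ε * R z + ε ^ 2) (sphere 0 1) :=
      hc3.add continuousOn_const
    have hc5 : ContinuousOn (fun z => R z ^ 2 + 2 * ε * R z + ε ^ 2 - ((Q ^ 2).eval z).re)
        (sphere 0 1) := hc4.sub (cont_ev _)
    have e1 : av (fun z => rt t c ζ z * ((Q ^ 3).eval z).re) + B * a0 ^ 3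
        + 3 * (1 + ε * (K + B)) * (M2 + 2 * ε * m1 + ε ^ 2 - a0 ^ 2)
        = av (fun z => rt t c ζ z * ((Q ^ 3).eval z).re + B * ((Q ^ 3).eval z).re
          + 3 * (1 + ε * (K + B)) * (R z ^ 2 + 2 * ε * R z + ε ^ 2 - ((Q ^ 2).eval z).re)) := by
      rw [av_add' (f := fun z => rt t c ζ z * ((Q ^ 3).eval z).re + B * ((Q ^ 3).eval z).re)
        (g := fun z => 3 * (1 + ε * (K + B)) *
          (R z ^ 2 + 2 * ε * R z + ε ^ 2 - ((Q ^ 2).eval z).re))
        (hc1.add hc2) (continuousOn_const.mul hc5), av_add' hc1 hc2, av_mul', av_mul',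
        av_sub' hc4 (cont_ev _),
        av_add' (f := fun z => R z ^ 2 + 2 * ε * R z) (g := fun _ => ε ^ 2) hc3 continuousOn_const,
        av_add' (f := fun z => R z ^ 2) (g := fun z => 2 * ε * R z) (hRc.pow 2)
          (continuousOn_const.mul hRc), av_mul', av_const', hQ2, hQ3]
    rw [e1]
    refine av_mono' (hRc.pow 2) ((hc1.add hc2).add (continuousOn_const.mul hc5)) fun z hz => ?_
    have h5 := pt_ineq (ρ := rt t c ζ z) (B := B) (R := R z) (q := (Q.eval z).re)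
      (u := (Q.eval z).im) (ε := ε) (K := K) (rt_nonneg t hc ζ z) (hK z hz) hB
      (by rw [hR]; simp only []; rw [one_div, inv_mul_cancel₀ (hpos z).ne']) (hR0 z)
      (hQ z hz).1 (hQ z hz).2 hε.le
    rw [eval_pow, eval_pow, cube_re, sq_re]
    have h6 : (Q.eval z).re ^ 2 ≤ (R z + ε) ^ 2 :=
      pow_le_pow_left₀ ((hR0 z).trans (hQ z hz).1) (hQ z hz).2 2
    have h7 : 0 ≤ 3 * (1 + ε * (K + B)) := by positivity
    have h8 := mul_le_mul_of_nonneg_left h6 h7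
    nlinarith
  have h5 : a0 ^ 3 ≤ (m1 + ε) ^ 3 := pow_le_pow_left₀ (hm0.trans h1) h2 3
  have h6 : m1 ^ 2 ≤ a0 ^ 2 := pow_le_pow_left₀ hm0 h1 2
  have h7 : 0 ≤ 3 * (1 + ε * (K + B)) := by positivity
  have h8 := mul_le_mul_of_nonneg_left h6 h7
  have h9 := mul_le_mul_of_nonneg_left h5 hB.le
  nlinarith

/-- the inequality for the atoms inside the disc -/
theorem claim_t {m : ℕ} {t : ℝ} (ht0 : 0 ≤ t) (ht1 : t < 1) {c : Fin m → ℝ}
    (hc : ∀ i, 0 < c i) {ζ : Fin m → ℂ} (hζ : ∀ i, ‖ζ i‖ = 1) {B : ℝ} (hB : 0 < B) :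
    3 * (av fun z => 1 / (rt t c ζ z + B)) ^ 2 - B * (av fun z => 1 / (rt t c ζ z + B)) ^ 3
      ≤ 2 * av (fun z => (1 / (rt t c ζ z + B)) ^ 2) + (1 - t ^ 2) ^ 2 * ∑ i, ((c i)⁻¹) ^ 2 := by
  have ht2 : 0 < 1 - t ^ 2 := by nlinarith
  set K : ℝ := ∑ i, c i / (1 - t) ^ 2 with hKd
  have hK : ∀ z : ℂ, ‖z‖ = 1 → rt t c ζ z ≤ K := by
    intro z hz
    unfold rt
    refine Finset.sum_le_sum fun i _ => ?_
    have h1 := dist_ge ht0 (hζ i) hz
    have h2 : 0 < 1 - t := by linarith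
    exact div_le_div_of_nonneg_left (hc i).le (by positivity) (pow_le_pow_left₀ h2.le h1 2)
  set m1 : ℝ := av fun z => 1 / (rt t c ζ z + B) with hm1
  set M2 : ℝ := av (fun z => (1 / (rt t c ζ z + B)) ^ 2) with hM2
  have key : ∀ ε : ℝ, 0 < ε → M2 ≤ ∑ i, c i / (1 - t ^ 2) * ((1 - t ^ 2) / c i + ε) ^ 3
      + B * (m1 + ε) ^ 3 + 3 * (1 + ε * (K + B)) * (M2 + 2 * ε * m1 + ε ^ 2 - m1 ^ 2) :=
    fun ε hε => claim_eps ht0 ht1 hc hζ hB hK hε
  have hcont : Continuous fun ε : ℝ => ∑ i, c i / (1 - t ^ 2) * ((1 - t ^ 2) / c i + ε) ^ 3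
      + B * (m1 + ε) ^ 3 + 3 * (1 + ε * (K + B)) * (M2 + 2 * ε * m1 + ε ^ 2 - m1 ^ 2) := by
    fun_prop
  have h0 := (hcont.tendsto 0).mono_left (nhdsWithin_le_nhds (s := Ioi 0))
  have h1 : M2 ≤ ∑ i, c i / (1 - t ^ 2) * ((1 - t ^ 2) / c i + 0) ^ 3
      + B * (m1 + 0) ^ 3 + 3 * (1 + 0 * (K + B)) * (M2 + 2 * 0 * m1 + 0 ^ 2 - m1 ^ 2) :=
    ge_of_tendsto h0 (eventually_mem_nhdsWithin.mono fun ε hε => key ε hε)
  have h2 : ∑ i, c i / (1 - t ^ 2) * ((1 - t ^ 2) / c i + 0) ^ 3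
      = (1 - t ^ 2) ^ 2 * ∑ i, ((c i)⁻¹) ^ 2 := by
    rw [Finset.mul_sum]
    refine Finset.sum_congr rfl fun i _ => ?_
    have := (hc i).ne'
    field_simp
    ring
  rw [h2] at h1
  nlinarith

theorem t_S1 : T_S1 := by
  intro m c ζ hc hζ B hB
  set r : ℕ → ℝ := fun k => (k : ℝ) / (k + 1) with hr
  have hr0 : ∀ k, 0 ≤ r k := fun k => by positivity
  have hr1 : ∀ k, r k < 1 := fun k => by
    rw [hr]; simp only []; rw [div_lt_one (by positivity)]; linarith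
  have hrt : Tendsto r atTop (𝓝 1) := tendsto_natCast_div_add_atTop 1
  have hpos : ∀ k, ∀ z : ℂ, 0 < rt (r k) c ζ z + B := fun k z => by
    have := rt_nonneg (r k) hc ζ z
    linarith
  have hcont : ∀ k, ContinuousOn (fun z => B / (rt (r k) c ζ z + B)) (sphere 0 1) := fun k =>
    continuousOn_const.div ((cont_rt (hr0 k) (hr1 k) c hζ).add continuousOn_const)
      fun z _ => (hpos k z).ne'
  have hb : ∀ k, ∀ z : ℂ, 0 ≤ B / (rt (r k) c ζ z + B) ∧ B / (rt (r k) c ζ z + B) ≤ 1 := by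
    intro k z
    refine ⟨div_nonneg hB.le (hpos k z).le, ?_⟩
    rw [div_le_one (hpos k z)]
    have := rt_nonneg (r k) hc ζ z
    linarith
  have hlim : ∀ z : ℂ, ‖z‖ = 1 → z ∉ Set.range ζ →
      Tendsto (fun k => B / (rt (r k) c ζ z + B)) atTop (𝓝 (B / (rho c ζ z + B))) := by
    intro z _ hz
    have h1 : Tendsto (fun k => rt (r k) c ζ z) atTop (𝓝 (rho c ζ z)) := by
      unfold rt rho
      refine tendsto_finsetSum _ fun i _ => ?_
      have h2 : ‖z - ζ i‖ ^ 2 ≠ 0 := by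
        intro h
        have h3 : z = ζ i := by simpa [sub_eq_zero] using h
        exact hz ⟨i, h3.symm⟩
      refine Tendsto.div tendsto_const_nhds ?_ h2
      have h3 : Tendsto (fun k => (r k : ℂ)) atTop (𝓝 ((1 : ℝ) : ℂ)) :=
        (Complex.continuous_ofReal.tendsto 1).comp hrt
      have h4 : Tendsto (fun k => z - (r k : ℂ) * ζ i) atTop (𝓝 (z - ζ i)) := by
        have h5 := (h3.mul_const (ζ i)).const_sub z
        rwa [Complex.ofReal_one, one_mul] at h5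
      exact h4.norm.pow 2
    refine Tendsto.div tendsto_const_nhds (h1.add_const B) ?_
    have : 0 ≤ rho c ζ z := Finset.sum_nonneg fun i _ => div_nonneg (hc i).le (sq_nonneg _)
    linarith
  have hfin : (Set.range ζ).Finite := Set.finite_range ζ
  have l1 := av_tendsto (F := fun k z => B / (rt (r k) c ζ z + B))
    (f := fun z => B / (rho c ζ z + B)) (K := 1) hfin (fun k => ci_of_cont (hcont k))
    (fun k z _ => by rw [abs_of_nonneg (hb k z).1]; exact (hb k z).2) hlim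
  have l2 := av_tendsto (F := fun k z => (B / (rt (r k) c ζ z + B)) ^ 2)
    (f := fun z => (B / (rho c ζ z + B)) ^ 2) (K := 1) hfin
    (fun k => ci_of_cont ((hcont k).pow 2))
    (fun k z _ => by
      rw [abs_of_nonneg (sq_nonneg _)]
      exact pow_le_one₀ (hb k z).1 (hb k z).2) (fun z hz hz2 => (hlim z hz hz2).pow 2)
  have l3 : Tendsto (fun k => B ^ 2 * ((1 - r k ^ 2) ^ 2 * ∑ i, ((c i)⁻¹) ^ 2)) atTop (𝓝 0) := by
    have h1 : Tendsto (fun k => B ^ 2 * ((1 - r k ^ 2) ^ 2 * ∑ i, ((c i)⁻¹) ^ 2)) atTop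
        (𝓝 (B ^ 2 * ((1 - 1 ^ 2) ^ 2 * ∑ i, ((c i)⁻¹) ^ 2))) :=
      ((((hrt.pow 2).const_sub 1).pow 2).mul_const _).const_mul _
    simpa using h1
  have key : ∀ k, 3 * (av fun z => B / (rt (r k) c ζ z + B)) ^ 2
      - (av fun z => B / (rt (r k) c ζ z + B)) ^ 3
      ≤ 2 * av (fun z => (B / (rt (r k) c ζ z + B)) ^ 2)
        + B ^ 2 * ((1 - r k ^ 2) ^ 2 * ∑ i, ((c i)⁻¹) ^ 2) := by
    intro k
    have h1 := claim_t (hr0 k) (hr1 k) hc hζ hB
    have e1 : (av fun z => B / (rt (r k) c ζ z + B)) = B * av fun z => 1 / (rt (r k) c ζ z + B) := by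
      rw [← av_mul']
      exact av_congr' fun z _ => by rw [mul_one_div]
    have e2 : (av fun z => (B / (rt (r k) c ζ z + B)) ^ 2)
        = B ^ 2 * av fun z => (1 / (rt (r k) c ζ z + B)) ^ 2 := by
      rw [← av_mul']
      exact av_congr' fun z _ => by rw [← mul_pow, mul_one_div]
    rw [e1, e2]
    have h2 := mul_le_mul_of_nonneg_left h1 (sq_nonneg B)
    nlinarith
  have h1 := le_of_tendsto_of_tendsto' (((l1.pow 2).const_mul 3).sub (l1.pow 3))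
    ((l2.const_mul 2).add l3) key
  simpa using h1

end Pool.Agent.H62.UB
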